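import Mathlib
import Pool.Agent.H63.Sey.Decomp
import Pool.Agent.H63.Sey.RegTrans
import Pool.Agent.H53.Sey.S1

set_option autoImplicit false

namespace Pool.Agent.Results.MP_dbe88a_co.RegularCount

universe u

/-- `M` is regular: over every finite field `F` there are vectors `v e` (in some vector space over
`F`) such that a set of elements of `M` is independent exactly when its vectors are linearly
independent. -/
def IsRegular {α : Type u} (M : Matroid α) : Prop :=
  ∀ (F : Type) [Field F] [Finite F], ∃ (W : Type u) (_ : AddCommGroup W) (_ : Module F W)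
    (v : α → W), ∀ I ⊆ M.E, (M.Indep I ↔ LinearIndepOn F v I)

/-- In every regular matroid with `m ≥ 2` elements, if `ℓ` is the least length of a circuit, then
for every positive integer `a` there are at most `m ^ (1792 a)` circuits of length at most
`a ℓ`. -/
theorem result : ∀ (α : Type u) (M : Matroid α), IsRegular M → 2 ≤ M.E.ncard →
    ∀ ℓ : ℕ, IsLeast {n | ∃ C, M.IsCircuit C ∧ C.ncard = n} ℓ → ∀ a : ℕ, 1 ≤ a →
      {C | M.IsCircuit C ∧ C.ncard ≤ a * ℓ}.Finite ∧
      {C | M.IsCircuit C ∧ C.ncard ≤ a * ℓ}.ncard ≤ M.E.ncard ^ (1792 * a) := by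
  intro α M hM hm ℓ hℓ a _
  classical
  have hfin : M.E.Finite := Set.finite_of_ncard_ne_zero (by omega)
  obtain ⟨W₂, _, _, v₂, h₂⟩ := hM (ZMod 2)
  obtain ⟨W₃, _, _, v₃, h₃⟩ := hM (ZMod 3)
  obtain ⟨N, hN, hE, hr⟩ := Pool.Agent.H63.Sey.exists_regular hfin h₂ h₃
  obtain ⟨k, _, hk, hle⟩ := Pool.Agent.H63.Sey.exists_goodB
    (fun _ h1 h2 => Pool.Agent.H53.Sey.tutte h1 h2) Pool.Agent.H53.Sey.S1 hN
  have hc : N.E.card = M.E.ncard := by rw [← hE, Set.ncard_coe_finset]
  rw [hc] at hle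
  have h1 := H63Mat.count_of_repd (le_trans hle (H63Mat.hh_le _ (by omega)))
    (Pool.Agent.H63.Sey.repd_of_goodB hE hr hk) hm (ℓ := ℓ) (fun C hC => hℓ.2 ⟨C, hC, rfl⟩) a
  have hfin := Set.finite_of_encard_le_coe h1
  refine ⟨hfin, ?_⟩
  rw [← hfin.cast_ncard_eq] at h1
  exact_mod_cast h1

end Pool.Agent.Results.MP_dbe88a_co.RegularCount
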